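import Pool.Agent.TH809.MZ.Fin
import Pool.Agent.Helper240.ZU.A1

set_option autoImplicit false

/-!
The convexity bound for zeta between Weyl's bound on the critical line and the line `Re s = 1`:
`|ζ(σ + i t)| ≤ C |t| ^ (max 0 ((1 - σ) / 3) + ε)` for `1/2 ≤ σ ≤ 2`, `|t| ≥ 1`.
-/

namespace Pool.Agent.T2h46.ZC

open Complex Filter Topology MeasureTheory Set

noncomputable section

/-- `(v-1) ζ(v)` -/
def FF : ℂ → ℂ := Function.update (fun v => (v - 1) * riemannZeta v) 1 1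

theorem FF_one : FF 1 = 1 := Function.update_self _ _ _

theorem FF_ne {v : ℂ} (hv : v ≠ 1) : FF v = (v - 1) * riemannZeta v :=
  Function.update_of_ne hv _ _

theorem FF_diff : Differentiable ℂ FF := by
  rw [← differentiableOn_univ, ← differentiableOn_compl_singleton_and_continuousAt_iff
    (c := 1) Filter.univ_mem]
  constructor
  · intro v hv
    have hv1 : v ≠ 1 := hv.2
    have h1 : FF =ᶠ[𝓝 v] fun v => (v - 1) * riemannZeta v := by
      filter_upwards [isOpen_ne.mem_nhds hv1] with w hw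
      exact FF_ne hw
    have h2 : DifferentiableAt ℂ (fun v => (v - 1) * riemannZeta v) v :=
      (differentiableAt_id.sub_const 1).mul (differentiableAt_riemannZeta hv1)
    exact (h2.congr_of_eventuallyEq h1).differentiableWithinAt
  · unfold FF
    rw [continuousAt_update_same]
    exact riemannZeta_residue_one

theorem frac_int_le (v : ℂ) (hv : 0 < v.re) :
    ‖∫ u in Ioi (1 : ℝ), ((Int.fract u : ℝ) : ℂ) * (u : ℂ) ^ (-v - 1)‖ ≤ 1 / v.re := by
  have h1 : ∀ u ∈ Ioi (1 : ℝ), ‖((Int.fract u : ℝ) : ℂ) * (u : ℂ) ^ (-v - 1)‖ ≤ u ^ (-v.re - 1) := by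
    intro u hu
    have hu0 : (0 : ℝ) < u := lt_trans zero_lt_one hu
    rw [norm_mul, Complex.norm_cpow_eq_rpow_re_of_pos hu0]
    have h2 : ‖((Int.fract u : ℝ) : ℂ)‖ ≤ 1 := by
      rw [Complex.norm_real, Real.norm_of_nonneg (Int.fract_nonneg u)]
      exact (Int.fract_lt_one u).le
    have h3 : (-v - 1 : ℂ).re = -v.re - 1 := by simp
    rw [h3]
    calc ‖((Int.fract u : ℝ) : ℂ)‖ * u ^ (-v.re - 1) ≤ 1 * u ^ (-v.re - 1) :=
          mul_le_mul_of_nonneg_right h2 (by positivity)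
      _ = _ := one_mul _
  have h4 : IntegrableOn (fun u : ℝ => u ^ (-v.re - 1)) (Ioi 1) :=
    integrableOn_Ioi_rpow_of_lt (by linarith) zero_lt_one
  have h5 : ∫ u in Ioi (1 : ℝ), u ^ (-v.re - 1) = 1 / v.re := by
    rw [integral_Ioi_rpow_of_lt (by linarith) zero_lt_one]
    rw [Real.one_rpow]
    have : -v.re - 1 + 1 = -v.re := by ring
    rw [this, neg_div_neg_eq]
  rw [← h5]
  exact norm_integral_le_of_norm_le h4 ((ae_restrict_iff' measurableSet_Ioi).2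
    (Filter.Eventually.of_forall h1))

theorem FF_eq (v : ℂ) (hv : 0 < v.re) (hv1 : v ≠ 1) : FF v = v - (v - 1) * v *
    ∫ u in Ioi (1 : ℝ), ((Int.fract u : ℝ) : ℂ) * (u : ℂ) ^ (-v - 1) := by
  rw [FF_ne hv1, ZU.J_a1.zf_one v hv hv1]
  have : v - 1 ≠ 0 := sub_ne_zero.2 hv1
  field_simp
  ring

theorem FF_bound (v : ℂ) (hv : 1 / 2 ≤ v.re) : ‖FF v‖ ≤ 3 * (1 + ‖v‖) ^ 2 := by
  have hn := norm_nonneg v
  by_cases hv1 : v = 1
  · rw [hv1]
    have : FF 1 = 1 := FF_one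
    rw [this]
    simp only [norm_one]
    norm_num
  · rw [FF_eq v (by linarith) hv1]
    have h1 := frac_int_le v (by linarith)
    have h2 : 1 / v.re ≤ 1 / (1 / 2) := one_div_le_one_div_of_le (by norm_num) hv
    have h3 : ‖v - 1‖ ≤ ‖v‖ + 1 := by
      have := norm_sub_le v 1
      simpa using this
    calc ‖v - (v - 1) * v * ∫ u in Ioi (1 : ℝ), ((Int.fract u : ℝ) : ℂ) * (u : ℂ) ^ (-v - 1)‖
        ≤ ‖v‖ + ‖(v - 1) * v * ∫ u in Ioi (1 : ℝ), ((Int.fract u : ℝ) : ℂ) * (u : ℂ) ^ (-v - 1)‖ :=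
          norm_sub_le _ _
      _ = ‖v‖ + ‖v - 1‖ * ‖v‖ * ‖∫ u in Ioi (1 : ℝ), ((Int.fract u : ℝ) : ℂ) * (u : ℂ) ^ (-v - 1)‖ := by
          rw [norm_mul, norm_mul]
      _ ≤ ‖v‖ + (‖v‖ + 1) * ‖v‖ * 2 := by
          have := h1.trans h2
          norm_num at this
          gcongr
      _ ≤ 3 * (1 + ‖v‖) ^ 2 := by nlinarith [mul_nonneg hn hn]

/-- the base `4 - (s - 1)²`, with positive real part in the strip -/
def gg (s : ℂ) : ℂ := 4 - (s - 1) ^ 2

lemma gg_re (s : ℂ) : (gg s).re = 4 - (s.re - 1) ^ 2 + s.im ^ 2 := by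
  unfold gg
  simp [pow_two]
  ring

lemma gg_im (s : ℂ) : (gg s).im = -(2 * (s.re - 1) * s.im) := by
  unfold gg
  simp [pow_two]
  ring

lemma gg_slit {s : ℂ} (h1 : 1 / 2 ≤ s.re) (h2 : s.re ≤ 2) : gg s ∈ slitPlane := by
  left
  rw [gg_re]
  nlinarith [sq_nonneg s.im]

lemma gg_lower {s : ℂ} (h1 : 1 / 2 ≤ s.re) (h2 : s.re ≤ 2) : 3 + s.im ^ 2 ≤ ‖gg s‖ := by
  refine le_trans ?_ (Complex.re_le_norm _)
  rw [gg_re]
  nlinarith

lemma gg_upper {s : ℂ} (h1 : 1 / 2 ≤ s.re) (h2 : s.re ≤ 2) : ‖gg s‖ ≤ 5 + s.im ^ 2 := by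
  unfold gg
  refine (norm_sub_le _ _).trans ?_
  rw [norm_pow, Complex.sq_norm, Complex.normSq_apply]
  simp only [sub_re, one_re, sub_im, one_im, sub_zero]
  have : ‖(4 : ℂ)‖ = 4 := by simp
  rw [this]
  nlinarith

/-- `|t| |arg (g s)| ≤ 2` -/
lemma gg_arg {s : ℂ} (h1 : 1 / 2 ≤ s.re) (h2 : s.re ≤ 2) : |s.im| * |(gg s).arg| ≤ 2 := by
  have hre : 3 + s.im ^ 2 ≤ (gg s).re := by
    rw [gg_re]; nlinarith
  have hre0 : 0 < (gg s).re := by nlinarith [sq_nonneg s.im]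
  have hlt : |(gg s).arg| < Real.pi / 2 := Complex.abs_arg_lt_pi_div_two_iff.2 (Or.inl hre0)
  have htan : |(gg s).arg| ≤ |(gg s).im / (gg s).re| := by
    rw [← Complex.tan_arg]
    rcases abs_cases (gg s).arg with h | h
    · rw [h.1] at hlt ⊢
      exact (Real.le_tan h.2 hlt).trans (le_abs_self _)
    · rw [h.1] at hlt ⊢
      have := Real.le_tan (by linarith [h.2] : 0 ≤ -(gg s).arg) hlt
      rw [Real.tan_neg] at this
      exact this.trans (neg_le_abs _)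
  have him : |(gg s).im| ≤ 2 * |s.im| := by
    rw [gg_im, abs_neg, abs_mul, abs_mul, abs_two]
    have h3 : |s.re - 1| ≤ 1 := by rw [abs_le]; constructor <;> linarith
    have := abs_nonneg s.im
    nlinarith
  have h4 : |(gg s).im / (gg s).re| ≤ 2 * |s.im| / (3 + s.im ^ 2) := by
    rw [abs_div, abs_of_pos hre0]
    have h5 : 0 < 3 + s.im ^ 2 := by nlinarith [sq_nonneg s.im]
    exact div_le_div₀ (by positivity) him h5 hre
  have h5 : 0 < 3 + s.im ^ 2 := by nlinarith [sq_nonneg s.im]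
  calc |s.im| * |(gg s).arg| ≤ |s.im| * (2 * |s.im| / (3 + s.im ^ 2)) :=
        mul_le_mul_of_nonneg_left (htan.trans h4) (abs_nonneg _)
    _ = 2 * s.im ^ 2 / (3 + s.im ^ 2) := by
        rw [← mul_div_assoc, ← sq_abs s.im]; ring
    _ ≤ 2 := by
        rw [div_le_iff₀ h5]; linarith

/-- the comparison function: `|hh| = |g|^(-Re l / 2) e^{O(1)}` with `l = (1 - s)/3 + ε` -/
def hh (ε : ℝ) (s : ℂ) : ℂ := cexp (-((1 - s) / 3 + ε) / 2 * Complex.log (gg s))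

lemma hh_diff (ε : ℝ) {s : ℂ} (h1 : 1 / 2 ≤ s.re) (h2 : s.re ≤ 2) :
    DifferentiableAt ℂ (hh ε) s := by
  unfold hh
  have h3 : DifferentiableAt ℂ gg s := by unfold gg; fun_prop
  have h4 : DifferentiableAt ℂ (fun s => Complex.log (gg s)) s := h3.clog (gg_slit h1 h2)
  fun_prop

lemma hh_norm (ε : ℝ) (s : ℂ) : ‖hh ε s‖ =
    Real.exp (-((1 - s.re) / 3 + ε) / 2 * Real.log ‖gg s‖ - s.im / 6 * (gg s).arg) := by
  unfold hh
  rw [Complex.norm_exp]
  congr 1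
  have e : (-((1 - s) / 3 + ε) / 2 : ℂ) =
      ((-((1 - s.re) / 3 + ε) / 2 : ℝ) : ℂ) + ((s.im / 6 : ℝ) : ℂ) * I := by
    apply Complex.ext
    · simp
    · simp
      ring
  rw [e, add_mul, add_re, re_ofReal_mul, mul_assoc, re_ofReal_mul, Complex.log_re, I_mul_re, Complex.log_im]
  ring

lemma hh_upper (ε : ℝ) {s : ℂ} (h1 : 1 / 2 ≤ s.re) (h2 : s.re ≤ 2) :
    ‖hh ε s‖ ≤ 2 * ‖gg s‖ ^ (-((1 - s.re) / 3 + ε) / 2) := by
  have hg : 0 < ‖gg s‖ := by have := gg_lower h1 h2; nlinarith [sq_nonneg s.im]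
  rw [hh_norm, sub_eq_add_neg, Real.exp_add, Real.rpow_def_of_pos hg, mul_comm, mul_comm (Real.log _)]
  have h3 := gg_arg h1 h2
  rw [← abs_mul] at h3
  have h4 : Real.exp (-(s.im / 6 * (gg s).arg)) ≤ 2 := by
    have h5 : -(s.im / 6 * (gg s).arg) ≤ 1 / 3 := by
      have := neg_abs_le (s.im * (gg s).arg)
      linarith
    have h6 : Real.exp (1 / 3) ≤ Real.exp 1 ^ (1 / 3 : ℝ) := by
      rw [← Real.exp_mul]; norm_num
    have h7 : Real.exp (1 / 3) ≤ 2 := by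
      have h8 : Real.exp (1 / 3) ≤ Real.exp (Real.log 2) := by
        apply Real.exp_le_exp.2
        linarith [Real.log_two_gt_d9]
      rwa [Real.exp_log two_pos] at h8
    exact (Real.exp_le_exp.2 h5).trans h7
  exact mul_le_mul_of_nonneg_right h4 (Real.exp_pos _).le

lemma hh_lower (ε : ℝ) {s : ℂ} (h1 : 1 / 2 ≤ s.re) (h2 : s.re ≤ 2) :
    ‖gg s‖ ^ (-((1 - s.re) / 3 + ε) / 2) ≤ 2 * ‖hh ε s‖ := by
  have hg : 0 < ‖gg s‖ := by have := gg_lower h1 h2; nlinarith [sq_nonneg s.im]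
  rw [hh_norm, show -((1 - s.re) / 3 + ε) / 2 * Real.log ‖gg s‖ - s.im / 6 * (gg s).arg =
    -((1 - s.re) / 3 + ε) / 2 * Real.log ‖gg s‖ + -(s.im / 6 * (gg s).arg) from sub_eq_add_neg _ _,
    Real.exp_add, Real.rpow_def_of_pos hg, mul_comm (Real.log _)]
  have h3 := gg_arg h1 h2
  rw [← abs_mul] at h3
  have h4 : 1 ≤ 2 * Real.exp (-(s.im / 6 * (gg s).arg)) := by
    have h5 : -(1 / 3) ≤ -(s.im / 6 * (gg s).arg) := by
      have := le_abs_self (s.im * (gg s).arg)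
      linarith
    have h8 : Real.exp (-Real.log 2) ≤ Real.exp (-(s.im / 6 * (gg s).arg)) := by
      apply Real.exp_le_exp.2
      linarith [Real.log_two_gt_d9]
    rw [Real.exp_neg, Real.exp_log two_pos] at h8
    linarith
  have h5 := Real.exp_pos (-((1 - s.re) / 3 + ε) / 2 * Real.log ‖gg s‖)
  nlinarith

/-- `ζ` to the right of `1` -/
lemma zeta_right (η : ℝ) (hη : 0 < η) : ∃ Z : ℝ, 0 < Z ∧ ∀ s : ℂ, 1 + η ≤ s.re → ‖riemannZeta s‖ ≤ Z := by
  have hs : Summable (fun n : ℕ => 1 / ((n : ℝ) + 1) ^ (1 + η)) := by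
    have := (Real.summable_one_div_nat_rpow (p := 1 + η)).2 (by linarith)
    have h2 := (summable_nat_add_iff 1).2 this
    refine h2.congr fun n => ?_
    push_cast
    rfl
  refine ⟨(∑' n : ℕ, 1 / ((n : ℝ) + 1) ^ (1 + η)) + 1, ?_, fun s h => ?_⟩
  · have : 0 ≤ ∑' n : ℕ, 1 / ((n : ℝ) + 1) ^ (1 + η) := tsum_nonneg fun n => by positivity
    linarith
  · rw [zeta_eq_tsum_one_div_nat_add_one_cpow (by linarith)]
    refine (tsum_of_norm_bounded hs.hasSum fun n => ?_).trans (by linarith)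
    have h1 : ((n : ℂ) + 1) = (((n : ℝ) + 1 : ℝ) : ℂ) := by push_cast; ring
    rw [norm_div, norm_one, h1, Complex.norm_cpow_eq_rpow_re_of_pos (by positivity)]
    apply one_div_le_one_div_of_le (by positivity)
    exact Real.rpow_le_rpow_of_exponent_le (by linarith [(Nat.cast_nonneg n : (0:ℝ) ≤ n)]) h

/-- the bound inside the strip `1/2 ≤ σ ≤ 1 + 3 ε` -/
theorem strip (hW : Pool.Agent.TH809.MZ.Growth (1 / 6)) (ε : ℝ) (hε : 0 < ε) (hε1 : ε ≤ 1 / 3) :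
    ∃ C : ℝ, 0 < C ∧ ∀ s : ℂ, 1 / 2 ≤ s.re → s.re ≤ 1 + 3 * ε → 1 ≤ |s.im| →
      ‖riemannZeta s‖ ≤ C * |s.im| ^ ((1 - s.re) / 3 + ε) := by
  obtain ⟨C, hC⟩ := hW ε hε
  obtain ⟨Z, hZ0, hZ⟩ := zeta_right (3 * ε) (by linarith)
  obtain ⟨B, hB⟩ : ∃ B : ℝ, B = max (4 * |C|) (2 * Z) := ⟨_, rfl⟩
  have hB1 : 4 * |C| ≤ B := by rw [hB]; exact le_max_left _ _
  have hB2 : 2 * Z ≤ B := by rw [hB]; exact le_max_right _ _
  have hB0 : 0 < B := by linarith
  obtain ⟨f, hf⟩ : ∃ f : ℂ → ℂ, f = fun s => FF s * (s + 2)⁻¹ * hh ε s := ⟨_, rfl⟩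
  have hn2 : ∀ s : ℂ, 1 / 2 ≤ s.re → 1 ≤ ‖s + 2‖ := by
    intro s hs
    have := Complex.re_le_norm (s + 2)
    simp at this
    linarith
  have hne2 : ∀ s : ℂ, 1 / 2 ≤ s.re → s + 2 ≠ 0 := by
    intro s hs h
    have := hn2 s hs
    rw [h, norm_zero] at this
    linarith
  have hs12 : ∀ s : ℂ, 1 / 2 ≤ s.re → ‖s - 1‖ ≤ ‖s + 2‖ := by
    intro s hs
    rw [← sq_le_sq₀ (norm_nonneg _) (norm_nonneg _), Complex.sq_norm, Complex.sq_norm,
      Complex.normSq_apply, Complex.normSq_apply]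
    simp only [sub_re, add_re, sub_im, add_im, one_re, one_im, re_ofNat, im_ofNat, sub_zero, add_zero]
    nlinarith
  have hfn : ∀ s : ℂ, ‖f s‖ = ‖FF s‖ * ‖s + 2‖⁻¹ * ‖hh ε s‖ := by
    intro s
    rw [hf, norm_mul, norm_mul, norm_inv]
  have hfd : ∀ s : ℂ, 1 / 2 ≤ s.re → s.re ≤ 2 → DifferentiableAt ℂ f s := by
    intro s hs hs2
    rw [hf]
    have h1 : DifferentiableAt ℂ (fun s : ℂ => (s + 2)⁻¹) s :=
      (differentiableAt_id.add_const 2).inv (hne2 s hs)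
    exact ((FF_diff s).mul h1).mul (hh_diff ε hs hs2)
  have hhb : ∀ s : ℂ, 1 / 2 ≤ s.re → s.re ≤ 1 + 3 * ε → ‖hh ε s‖ ≤ 2 := by
    intro s hs hs2
    refine (hh_upper ε hs (by linarith)).trans ?_
    have h1 : 1 ≤ ‖gg s‖ := by
      have := gg_lower hs (by linarith : s.re ≤ 2)
      nlinarith [sq_nonneg s.im]
    have h2 : ‖gg s‖ ^ (-((1 - s.re) / 3 + ε) / 2) ≤ 1 :=
      Real.rpow_le_one_of_one_le_of_nonpos h1 (by linarith)
    linarith
  have key : ∀ s : ℂ, 1 / 2 ≤ s.re → s.re ≤ 1 + 3 * ε → ‖f s‖ ≤ B := by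
    intro s hs1 hs2
    refine PhragmenLindelof.vertical_strip (a := 1 / 2) (b := 1 + 3 * ε) (C := B) ?_ ?_ ?_ ?_ hs1 hs2
    · apply DifferentiableOn.diffContOnCl
      intro z hz
      have h1 : closure (re ⁻¹' Ioo (1 / 2) (1 + 3 * ε)) ⊆ re ⁻¹' Icc (1 / 2) (1 + 3 * ε) := by
        apply closure_minimal
        · intro z hz; exact ⟨hz.1.le, hz.2.le⟩
        · exact isClosed_Icc.preimage Complex.continuous_re
      have h2 := h1 hz
      exact (hfd z h2.1 (by linarith [h2.2])).differentiableWithinAt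
    · refine ⟨1, ?_, 2, ?_⟩
      · rw [lt_div_iff₀ (by linarith)]
        linarith [Real.pi_gt_three]
      · apply Asymptotics.IsBigO.of_bound 54
        apply Filter.mem_inf_of_right
        intro z hz
        have hz1 : 1 / 2 ≤ z.re := hz.1.le
        have hz2 : z.re ≤ 1 + 3 * ε := hz.2.le
        have h1 : ‖f z‖ ≤ 3 * (1 + ‖z‖) ^ 2 * 2 := by
          rw [hfn]
          have h3 : ‖z + 2‖⁻¹ ≤ 1 := inv_le_one_of_one_le₀ (hn2 z hz1)
          have h4 : 0 ≤ ‖z + 2‖⁻¹ := by positivity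
          have h5 := FF_bound z hz1
          have h6 := hhb z hz1 hz2
          calc ‖FF z‖ * ‖z + 2‖⁻¹ * ‖hh ε z‖ ≤ (3 * (1 + ‖z‖) ^ 2) * 1 * 2 := by gcongr
            _ = _ := by ring
        have h2 : ‖z‖ ≤ 2 + |z.im| := by
          refine (Complex.norm_le_abs_re_add_abs_im z).trans ?_
          rw [abs_of_nonneg (by linarith : (0 : ℝ) ≤ z.re)]
          linarith
        have h3 : 1 + |z.im| ≤ Real.exp |z.im| := by
          have := Real.add_one_le_exp |z.im|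
          linarith
        have h0 := abs_nonneg z.im
        have h4 : (1 + ‖z‖) ^ 2 ≤ 9 * (Real.exp |z.im|) ^ 2 := by
          have h5 : 1 + ‖z‖ ≤ 3 * Real.exp |z.im| := by linarith
          calc (1 + ‖z‖) ^ 2 ≤ (3 * Real.exp |z.im|) ^ 2 := by
                apply pow_le_pow_left₀ (by positivity) h5
            _ = _ := by ring
        have h6 : (Real.exp |z.im|) ^ 2 ≤ Real.exp (2 * Real.exp (1 * |z.im|)) := by
          rw [← Real.exp_nat_mul, one_mul]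
          apply Real.exp_le_exp.2
          push_cast
          linarith
        rw [Set.mem_ofPred_eq, Real.norm_of_nonneg (Real.exp_pos _).le]
        linarith
    · intro z hz
      have hz0 : z.re = 1 / 2 := hz
      have hz1 : 1 / 2 ≤ z.re := hz0.ge
      have hne : z ≠ 1 := by
        intro h; rw [h] at hz0; simp at hz0
      have hze : z = ⟨1 / 2, z.im⟩ := by
        apply Complex.ext <;> simp [hz0]
      rw [hfn, FF_ne hne, norm_mul]
      have h1 := hC z.im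
      rw [← hze] at h1
      have h2 := hh_upper ε hz1 (by linarith)
      have h3 : (-((1 - z.re) / 3 + ε) / 2) = -((1 / 6 + ε) / 2) := by rw [hz0]; ring
      rw [h3] at h2
      have hg := gg_lower hz1 (by linarith : z.re ≤ 2)
      have hg0 : 0 < 3 + z.im ^ 2 := by nlinarith [sq_nonneg z.im]
      have hgp : 0 < ‖gg z‖ := by linarith
      have h4 : (1 + |z.im|) ^ (1 / 6 + ε) ≤ 2 * ‖gg z‖ ^ ((1 / 6 + ε) / 2) := by
        have h5 : (1 + |z.im|) ^ (1 / 6 + ε) = ((1 + |z.im|) ^ 2) ^ ((1 / 6 + ε) / 2) := by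
          rw [← Real.rpow_natCast, ← Real.rpow_mul (by positivity)]
          congr 1
          push_cast; ring
        have h6 : (1 + |z.im|) ^ 2 ≤ 2 * ‖gg z‖ := by
          have : z.im ^ 2 = |z.im| ^ 2 := (sq_abs _).symm
          nlinarith [sq_nonneg (|z.im| - 1)]
        rw [h5]
        calc ((1 + |z.im|) ^ 2) ^ ((1 / 6 + ε) / 2) ≤ (2 * ‖gg z‖) ^ ((1 / 6 + ε) / 2) :=
              Real.rpow_le_rpow (by positivity) h6 (by positivity)
          _ = 2 ^ ((1 / 6 + ε) / 2) * ‖gg z‖ ^ ((1 / 6 + ε) / 2) := Real.mul_rpow (by norm_num) hgp.le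
          _ ≤ 2 ^ (1 : ℝ) * ‖gg z‖ ^ ((1 / 6 + ε) / 2) := by
              apply mul_le_mul_of_nonneg_right _ (by positivity)
              exact Real.rpow_le_rpow_of_exponent_le (by norm_num) (by linarith)
          _ = _ := by rw [Real.rpow_one]
      have h7 : ‖riemannZeta z‖ ≤ |C| * (2 * ‖gg z‖ ^ ((1 / 6 + ε) / 2)) := by
        refine h1.trans ?_
        calc C * (1 + |z.im|) ^ (1 / 6 + ε) ≤ |C| * (1 + |z.im|) ^ (1 / 6 + ε) :=
              mul_le_mul_of_nonneg_right (le_abs_self _) (by positivity)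
          _ ≤ _ := mul_le_mul_of_nonneg_left h4 (abs_nonneg _)
      have hp : 0 < ‖z + 2‖ := by linarith [hn2 z hz1]
      have h8 : ‖z - 1‖ * ‖z + 2‖⁻¹ ≤ 1 := by
        rw [← div_eq_mul_inv, div_le_one hp]; exact hs12 z hz1
      calc ‖z - 1‖ * ‖riemannZeta z‖ * ‖z + 2‖⁻¹ * ‖hh ε z‖
          = (‖z - 1‖ * ‖z + 2‖⁻¹) * (‖riemannZeta z‖ * ‖hh ε z‖) := by ring
        _ ≤ 1 * ((|C| * (2 * ‖gg z‖ ^ ((1 / 6 + ε) / 2))) * (2 * ‖gg z‖ ^ (-((1 / 6 + ε) / 2)))) := by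
            gcongr
        _ = 4 * |C| * (‖gg z‖ ^ ((1 / 6 + ε) / 2) * ‖gg z‖ ^ (-((1 / 6 + ε) / 2))) := by ring
        _ = 4 * |C| := by rw [← Real.rpow_add hgp, add_neg_cancel, Real.rpow_zero, mul_one]
        _ ≤ B := hB1
    · intro z hz
      have hz0 : z.re = 1 + 3 * ε := hz
      have hz1 : 1 / 2 ≤ z.re := by rw [hz0]; linarith
      have hne : z ≠ 1 := by
        intro h; rw [h] at hz0; simp at hz0; linarith
      rw [hfn, FF_ne hne, norm_mul]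
      have h1 := hZ z (by rw [hz0])
      have h2 := hhb z hz1 hz0.le
      have hp : 0 < ‖z + 2‖ := by linarith [hn2 z hz1]
      have h8 : ‖z - 1‖ * ‖z + 2‖⁻¹ ≤ 1 := by
        rw [← div_eq_mul_inv, div_le_one hp]; exact hs12 z hz1
      calc ‖z - 1‖ * ‖riemannZeta z‖ * ‖z + 2‖⁻¹ * ‖hh ε z‖
          = (‖z - 1‖ * ‖z + 2‖⁻¹) * (‖riemannZeta z‖ * ‖hh ε z‖) := by ring
        _ ≤ 1 * (Z * 2) := by gcongr
        _ ≤ B := by linarith
  refine ⟨60 * B, by positivity, fun s hs1 hs2 ht => ?_⟩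
  have hk := key s hs1 hs2
  have hne : s ≠ 1 := by
    intro h
    rw [h] at ht
    simp at ht
    linarith
  rw [hfn, FF_ne hne, norm_mul] at hk
  have hp : 0 < ‖s + 2‖ := by linarith [hn2 s hs1]
  have htp : 0 < |s.im| := by linarith
  have h1 : |s.im| ≤ ‖s - 1‖ := by
    have := abs_im_le_norm (s - 1)
    simpa using this
  have h2 : ‖s + 2‖ ≤ 5 * |s.im| := by
    refine (Complex.norm_le_abs_re_add_abs_im _).trans ?_
    have e1 : (s + 2).re = s.re + 2 := by rw [add_re]; simp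
    have e2 : (s + 2).im = s.im := by rw [add_im]; simp
    rw [e1, e2, abs_of_nonneg (by linarith)]
    linarith
  have hl := hh_lower ε hs1 (by linarith : s.re ≤ 2)
  have hg := gg_upper hs1 (by linarith : s.re ≤ 2)
  have hgl := gg_lower hs1 (by linarith : s.re ≤ 2)
  have hgp : 0 < ‖gg s‖ := by nlinarith [sq_nonneg s.im]
  obtain ⟨l, hl0⟩ : ∃ l : ℝ, l = (1 - s.re) / 3 + ε := ⟨_, rfl⟩
  have hl1 : 0 ≤ l := by rw [hl0]; linarith
  have hl2 : l ≤ 1 := by rw [hl0]; linarith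
  rw [← hl0] at hl ⊢
  -- lower bound for the comparison function
  have h3 : |s.im| ^ (-l) ≤ 6 * ‖hh ε s‖ * 1 := by
    have h4 : ‖gg s‖ ≤ 6 * |s.im| ^ 2 := by
      have : s.im ^ 2 = |s.im| ^ 2 := (sq_abs _).symm
      nlinarith
    have h5 : (6 * |s.im| ^ 2) ^ (-l / 2) ≤ ‖gg s‖ ^ (-l / 2) :=
      Real.rpow_le_rpow_of_nonpos hgp h4 (by linarith)
    have h6 : (6 * |s.im| ^ 2) ^ (-l / 2) = 6 ^ (-l / 2) * |s.im| ^ (-l) := by
      rw [Real.mul_rpow (by norm_num) (by positivity), ← Real.rpow_natCast, ← Real.rpow_mul htp.le]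
      congr 2
      push_cast; ring
    have h7 : (1 / 3 : ℝ) ≤ 6 ^ (-l / 2) := by
      calc (1 / 3 : ℝ) ≤ 6 ^ (-(1 / 2) : ℝ) := by
            rw [Real.rpow_neg (by norm_num), ← Real.sqrt_eq_rpow, one_div]
            apply inv_anti₀ (by positivity)
            rw [Real.sqrt_le_left (by norm_num)]
            norm_num
        _ ≤ _ := Real.rpow_le_rpow_of_exponent_le (by norm_num) (by linarith)
    have h8 : 0 ≤ |s.im| ^ (-l) := by positivity
    have h9 : 1 / 3 * |s.im| ^ (-l) ≤ 2 * ‖hh ε s‖ := by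
      calc 1 / 3 * |s.im| ^ (-l) ≤ 6 ^ (-l / 2) * |s.im| ^ (-l) := mul_le_mul_of_nonneg_right h7 h8
        _ ≤ _ := (h6 ▸ h5).trans hl
    linarith
  -- assemble
  have h4 : ‖riemannZeta s‖ * |s.im| ^ (-l) ≤ 60 * B := by
    have h5 : |s.im| * ‖s + 2‖⁻¹ ≥ 1 / 5 := by
      rw [ge_iff_le, ← div_eq_mul_inv, div_le_div_iff₀ (by norm_num) hp]
      linarith
    have h6 : 1 / 5 ≤ ‖s - 1‖ * ‖s + 2‖⁻¹ :=
      h5.trans (mul_le_mul_of_nonneg_right h1 (by positivity))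
    have h7 : 0 ≤ ‖riemannZeta s‖ * ‖hh ε s‖ := by positivity
    have h8 : (‖s - 1‖ * ‖s + 2‖⁻¹) * (‖riemannZeta s‖ * ‖hh ε s‖) ≤ B := by
      refine le_trans (le_of_eq ?_) hk
      ring
    have h9 : 1 / 5 * (‖riemannZeta s‖ * ‖hh ε s‖) ≤ B :=
      (mul_le_mul_of_nonneg_right h6 h7).trans h8
    have h10 : ‖riemannZeta s‖ * |s.im| ^ (-l) ≤ ‖riemannZeta s‖ * (6 * ‖hh ε s‖ * 1) :=
      mul_le_mul_of_nonneg_left h3 (norm_nonneg _)
    nlinarith
  calc ‖riemannZeta s‖ = ‖riemannZeta s‖ * |s.im| ^ (-l) * |s.im| ^ l := by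
        rw [mul_assoc, ← Real.rpow_add htp, neg_add_cancel, Real.rpow_zero, mul_one]
    _ ≤ _ := mul_le_mul_of_nonneg_right h4 (by positivity)

/-- the convexity bound -/
theorem convexity (hW : Pool.Agent.TH809.MZ.Growth (1 / 6)) (ε : ℝ) (hε : 0 < ε) :
    ∃ C : ℝ, 0 < C ∧ ∀ σ t : ℝ, 1 / 2 ≤ σ → σ ≤ 2 → 1 ≤ |t| →
      ‖riemannZeta (σ + I * t)‖ ≤ C * |t| ^ (max 0 ((1 - σ) / 3) + ε) := by
  obtain ⟨δ, hδ⟩ : ∃ δ : ℝ, δ = min ε (1 / 3) := ⟨_, rfl⟩
  have hδ0 : 0 < δ := by rw [hδ]; exact lt_min hε (by norm_num)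
  have hδ1 : δ ≤ ε := by rw [hδ]; exact min_le_left _ _
  have hδ2 : δ ≤ 1 / 3 := by rw [hδ]; exact min_le_right _ _
  obtain ⟨C, hC0, hC⟩ := strip hW δ hδ0 hδ2
  obtain ⟨Z, hZ0, hZ⟩ := zeta_right (3 * δ) (by linarith)
  refine ⟨max C Z, lt_max_of_lt_left hC0, fun σ t h1 h2 ht => ?_⟩
  have hre : ((σ : ℂ) + I * t).re = σ := by simp
  have him : ((σ : ℂ) + I * t).im = t := by simp
  have hm : 0 ≤ max 0 ((1 - σ) / 3) := le_max_left _ _
  have hm2 : (1 - σ) / 3 ≤ max 0 ((1 - σ) / 3) := le_max_right _ _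
  have hpos : 0 ≤ |t| ^ (max 0 ((1 - σ) / 3) + ε) := by positivity
  rcases le_or_gt σ (1 + 3 * δ) with h3 | h3
  · have h4 := hC ((σ : ℂ) + I * t) (by rw [hre]; exact h1) (by rw [hre]; exact h3) (by rw [him]; exact ht)
    rw [hre, him] at h4
    calc ‖riemannZeta (σ + I * t)‖ ≤ C * |t| ^ ((1 - σ) / 3 + δ) := h4
      _ ≤ C * |t| ^ (max 0 ((1 - σ) / 3) + ε) :=
          mul_le_mul_of_nonneg_left (Real.rpow_le_rpow_of_exponent_le ht (by linarith)) hC0.le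
      _ ≤ _ := mul_le_mul_of_nonneg_right (le_max_left _ _) hpos
  · have h4 := hZ ((σ : ℂ) + I * t) (by rw [hre]; exact h3.le)
    have h5 : 1 ≤ |t| ^ (max 0 ((1 - σ) / 3) + ε) := Real.one_le_rpow ht (by linarith)
    calc ‖riemannZeta (σ + I * t)‖ ≤ Z := h4
      _ ≤ Z * |t| ^ (max 0 ((1 - σ) / 3) + ε) := le_mul_of_one_le_right hZ0.le h5
      _ ≤ _ := mul_le_mul_of_nonneg_right (le_max_right _ _) hpos

end

end Pool.Agent.T2h46.ZC
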